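import Pool.Agent.MBX.Stmts

/-!
# MBX, row COM: the magnetic field is controlled by the kinetic energy
-/

set_option autoImplicit false

open MeasureTheory Complex

noncomputable section

namespace Pool.Agent.MBX.H48

open Pool.Agent.Helper49_Pauli

/-- Cauchy-Schwarz for continuous functions with compact support. -/
theorem cs_ineq (a b : X3 → ℝ) (ha : Continuous a) (hb : Continuous b) (hac : HasCompactSupport a)
    (hbc : HasCompactSupport b) :
    (∫ x, a x * b x) ^ 2 ≤ (∫ x, a x ^ 2) * (∫ x, b x ^ 2) := by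
  have iaa : Integrable (fun x => a x ^ 2) := by
    apply (ha.pow 2).integrable_of_hasCompactSupport
    have := hac.comp_left (g := fun t : ℝ => t ^ 2) (by simp)
    exact this
  have ibb : Integrable (fun x => b x ^ 2) := by
    apply (hb.pow 2).integrable_of_hasCompactSupport
    have := hbc.comp_left (g := fun t : ℝ => t ^ 2) (by simp)
    exact this
  have iab : Integrable (fun x => a x * b x) := by
    apply (ha.mul hb).integrable_of_hasCompactSupport
    exact hac.mul_right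
  have key : ∀ t : ℝ, 0 ≤ (∫ x, b x ^ 2) * (t * t) + (-2 * ∫ x, a x * b x) * t + ∫ x, a x ^ 2 := by
    intro t
    have h0 : 0 ≤ ∫ x, (a x - t * b x) ^ 2 := integral_nonneg fun x => sq_nonneg _
    have h1 : ∫ x, (a x - t * b x) ^ 2 =
        ∫ x, (a x ^ 2 + ((-2 * t) * (a x * b x) + (t * t) * b x ^ 2)) := by
      apply integral_congr_ae
      filter_upwards with x
      ring
    have h2 : ∫ x, (a x ^ 2 + ((-2 * t) * (a x * b x) + (t * t) * b x ^ 2)) =
        (∫ x, a x ^ 2) + ∫ x, ((-2 * t) * (a x * b x) + (t * t) * b x ^ 2) :=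
      integral_add iaa ((iab.const_mul (-2 * t)).add (ibb.const_mul (t * t)))
    have h3 : ∫ x, ((-2 * t) * (a x * b x) + (t * t) * b x ^ 2) =
        (∫ x, (-2 * t) * (a x * b x)) + ∫ x, (t * t) * b x ^ 2 :=
      integral_add (iab.const_mul (-2 * t)) (ibb.const_mul (t * t))
    rw [h1, h2, h3, integral_const_mul, integral_const_mul] at h0
    linarith [h0]
  have hd := discrim_le_zero key
  unfold discrim at hd
  nlinarith [hd]

/-- The Leibniz rule for covariant derivatives. -/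
theorem cv_mul (V : X3 → X3) (f : X3 → ℂ) (hf : CS f) (eta : X3 → ℝ)
    (he : ContDiff ℝ (⊤ : ℕ∞) eta) (j : Fin 3) (x : X3) :
    cv V j (fun z => ((eta z : ℝ) : ℂ) * f z) x =
      ((eta x : ℝ) : ℂ) * cv V j f x - I * ((pd j eta x : ℝ) : ℂ) * f x := by
  have hfd : DifferentiableAt ℝ f x := (hf.1.differentiable (by simp)) x
  have hed : DifferentiableAt ℝ eta x := (he.differentiable (by simp)) x
  have hec : HasFDerivAt (fun z => ((eta z : ℝ) : ℂ)) (Complex.ofRealCLM.comp (fderiv ℝ eta x)) x :=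
    Complex.ofRealCLM.hasFDerivAt.comp x hed.hasFDerivAt
  have hm := (hec.mul hfd.hasFDerivAt).fderiv
  have h1 : fderiv ℝ (fun z => ((eta z : ℝ) : ℂ) * f z) x (Pi.single j 1) =
      ((eta x : ℝ) : ℂ) * fderiv ℝ f x (Pi.single j 1) + f x * ((pd j eta x : ℝ) : ℂ) := by
    have : fderiv ℝ (fun z => ((eta z : ℝ) : ℂ) * f z) x = _ := hm
    rw [this]
    simp [pd]
  unfold cv
  rw [h1]
  ring

theorem com (hX : XibStmt) (hC : CccStmt) : ComStmt := by
  intro V hV f hf eta G w he he1 hG hw hwe c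
  -- the pair of directions of the component
  have hcurl : ∃ i j : Fin 3, i ≠ j ∧
      ∀ x, curl V x c = pd i (fun z => V z j) x - pd j (fun z => V z i) x := by
    fin_cases c
    · exact ⟨1, 2, by decide, fun x => by simp [curl]⟩
    · exact ⟨2, 0, by decide, fun x => by simp [curl]⟩
    · exact ⟨0, 1, by decide, fun x => by simp [curl]⟩
  obtain ⟨i, j, hij, hcur⟩ := hcurl
  have hG0 : 0 ≤ G := le_trans (abs_nonneg _) (hG 0 0)
  set g : X3 → ℂ := fun z => ((eta z : ℝ) : ℂ) * f z with hg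
  have hgCS : CS g := by
    refine ⟨?_, ?_⟩
    · exact (Complex.ofRealCLM.contDiff.comp he).mul hf.1
    · exact hf.2.mul_left
  have hcont : ∀ h : X3 → ℂ, CS h → Continuous h := fun h hh => hh.1.continuous
  have cvf : ∀ k, CS (cv V k f) := fun k => (hX V hV f f hf hf k).1
  have cvg : ∀ k, CS (cv V k g) := fun k => (hX V hV g g hgCS hgCS k).1
  -- norms
  have nrmC : ∀ h : X3 → ℂ, CS h → Continuous (fun x => ‖h x‖) ∧ HasCompactSupport fun x => ‖h x‖ := by
    intro h hh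
    exact ⟨(hcont h hh).norm, hh.2.norm⟩
  have sqI : ∀ h : X3 → ℂ, CS h → Integrable fun x => ‖h x‖ ^ 2 := by
    intro h hh
    apply ((nrmC h hh).1.pow 2).integrable_of_hasCompactSupport
    exact (nrmC h hh).2.comp_left (g := fun t : ℝ => t ^ 2) (by simp)
  have mulI : ∀ h k : X3 → ℂ, CS h → CS k → Integrable fun x => ‖h x‖ * ‖k x‖ := by
    intro h k hh hk
    apply ((nrmC h hh).1.mul (nrmC k hk).1).integrable_of_hasCompactSupport
    exact (nrmC h hh).2.mul_right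
  have conjI : ∀ h k : X3 → ℂ, CS h → CS k →
      Integrable fun x => (starRingEnd ℂ) (h x) * k x := by
    intro h k hh hk
    apply ((Complex.continuous_conj.comp (hcont h hh)).mul (hcont k hk)).integrable_of_hasCompactSupport
    exact hk.2.mul_left
  -- the energies
  set e : ℝ := ∫ x, ∑ j, ‖cv V j f x‖ ^ 2 with hedef
  set m : ℝ := ∫ x, ‖f x‖ ^ 2 with hmdef
  have hesum : e = ∑ k, ∫ x, ‖cv V k f x‖ ^ 2 := by
    rw [hedef, integral_finsetSum]
    intro k _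
    exact sqI _ (cvf k)
  have hek0 : ∀ k, 0 ≤ ∫ x, ‖cv V k f x‖ ^ 2 := fun k => integral_nonneg fun x => by positivity
  have hm0 : 0 ≤ m := integral_nonneg fun x => by positivity
  have hij_e : (∫ x, ‖cv V i f x‖ ^ 2) + (∫ x, ‖cv V j f x‖ ^ 2) ≤ e := by
    rw [hesum]
    have := Finset.sum_le_sum_of_subset_of_nonneg (Finset.subset_univ ({i, j} : Finset (Fin 3)))
      (f := fun k => ∫ x, ‖cv V k f x‖ ^ 2) (fun k _ _ => hek0 k)
    rwa [Finset.sum_pair hij] at this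
  have hk_e : ∀ k, (∫ x, ‖cv V k f x‖ ^ 2) ≤ e := by
    intro k
    rw [hesum]
    exact Finset.single_le_sum (f := fun k => ∫ x, ‖cv V k f x‖ ^ 2) (fun k _ => hek0 k)
      (Finset.mem_univ k)
  have hcs : ∀ k, ∫ x, ‖f x‖ * ‖cv V k f x‖ ≤ w := by
    intro k
    have h1 := cs_ineq (fun x => ‖f x‖) (fun x => ‖cv V k f x‖) (nrmC f hf).1 (nrmC _ (cvf k)).1
      (nrmC f hf).2 (nrmC _ (cvf k)).2
    have h2 : (∫ x, ‖f x‖ * ‖cv V k f x‖) ^ 2 ≤ w ^ 2 :=
      le_trans h1 (le_trans (mul_le_mul_of_nonneg_left (hk_e k) hm0) hwe)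
    exact le_of_sq_le_sq h2 hw
  -- the commutator
  have hccc := hC V hV g f hgCS hf i j
  have hR : (∫ x, ((pd i (fun z => V z j) x - pd j (fun z => V z i) x : ℝ) : ℂ) *
      ((starRingEnd ℂ) (g x) * f x)) = ((∫ x, eta x * curl V x c * ‖f x‖ ^ 2 : ℝ) : ℂ) := by
    rw [← integral_complex_ofReal]
    apply integral_congr_ae
    filter_upwards with x
    rw [← hcur x]
    simp only [hg, map_mul, Complex.conj_ofReal]
    have : (starRingEnd ℂ) (f x) * f x = ((‖f x‖ ^ 2 : ℝ) : ℂ) := by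
      rw [Complex.conj_mul']
      push_cast
      rfl
    calc ((curl V x c : ℝ) : ℂ) * (((eta x : ℝ) : ℂ) * (starRingEnd ℂ) (f x) * f x)
        = ((eta x : ℝ) : ℂ) * ((curl V x c : ℝ) : ℂ) * ((starRingEnd ℂ) (f x) * f x) := by ring
      _ = _ := by
        rw [this]
        push_cast
        rfl
  have hL : ‖(∫ x, (starRingEnd ℂ) (cv V i g x) * cv V j f x) -
      (∫ x, (starRingEnd ℂ) (cv V j g x) * cv V i f x)‖ =
      |∫ x, eta x * curl V x c * ‖f x‖ ^ 2| := by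
    rw [hccc, hR]
    simp
  rw [← hL, ← integral_sub (conjI _ _ (cvg i) (cvf j)) (conjI _ _ (cvg j) (cvf i))]
  have hcvg : ∀ k x, ‖cv V k g x‖ ≤ ‖cv V k f x‖ + G * ‖f x‖ := by
    intro k x
    rw [hg, cv_mul V f hf eta he k x]
    calc ‖((eta x : ℝ) : ℂ) * cv V k f x - I * ((pd k eta x : ℝ) : ℂ) * f x‖
        ≤ ‖((eta x : ℝ) : ℂ) * cv V k f x‖ + ‖I * ((pd k eta x : ℝ) : ℂ) * f x‖ := norm_sub_le _ _
      _ = |eta x| * ‖cv V k f x‖ + |pd k eta x| * ‖f x‖ := by simp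
      _ ≤ 1 * ‖cv V k f x‖ + G * ‖f x‖ := by
          gcongr
          · exact he1 x
          · exact hG x k
      _ = _ := by ring
  have bound : ∀ x, ‖(starRingEnd ℂ) (cv V i g x) * cv V j f x -
      (starRingEnd ℂ) (cv V j g x) * cv V i f x‖ ≤
      (‖cv V i f x‖ ^ 2 + ‖cv V j f x‖ ^ 2) +
        G * (‖f x‖ * ‖cv V i f x‖ + ‖f x‖ * ‖cv V j f x‖) := by
    intro x
    have h1 := norm_sub_le ((starRingEnd ℂ) (cv V i g x) * cv V j f x)
      ((starRingEnd ℂ) (cv V j g x) * cv V i f x)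
    rw [norm_mul, norm_mul, RCLike.norm_conj, RCLike.norm_conj] at h1
    have h2 := mul_le_mul_of_nonneg_right (hcvg i x) (norm_nonneg (cv V j f x))
    have h3 := mul_le_mul_of_nonneg_right (hcvg j x) (norm_nonneg (cv V i f x))
    have h4 := sq_nonneg (‖cv V i f x‖ - ‖cv V j f x‖)
    nlinarith [h1, h2, h3, h4]
  have iB : Integrable fun x => (‖cv V i f x‖ ^ 2 + ‖cv V j f x‖ ^ 2) +
        G * (‖f x‖ * ‖cv V i f x‖ + ‖f x‖ * ‖cv V j f x‖) :=
    ((sqI _ (cvf i)).add (sqI _ (cvf j))).add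
      (((mulI _ _ hf (cvf i)).add (mulI _ _ hf (cvf j))).const_mul G)
  have hfin := norm_integral_le_of_norm_le iB (Filter.Eventually.of_forall bound)
  have hval : ∫ x, ((‖cv V i f x‖ ^ 2 + ‖cv V j f x‖ ^ 2) +
        G * (‖f x‖ * ‖cv V i f x‖ + ‖f x‖ * ‖cv V j f x‖)) =
      ((∫ x, ‖cv V i f x‖ ^ 2) + ∫ x, ‖cv V j f x‖ ^ 2) +
        G * ((∫ x, ‖f x‖ * ‖cv V i f x‖) + ∫ x, ‖f x‖ * ‖cv V j f x‖) := by
    have g1 : ∫ x, ((‖cv V i f x‖ ^ 2 + ‖cv V j f x‖ ^ 2) +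
        G * (‖f x‖ * ‖cv V i f x‖ + ‖f x‖ * ‖cv V j f x‖)) =
        (∫ x, (‖cv V i f x‖ ^ 2 + ‖cv V j f x‖ ^ 2)) +
          ∫ x, G * (‖f x‖ * ‖cv V i f x‖ + ‖f x‖ * ‖cv V j f x‖) :=
      integral_add ((sqI _ (cvf i)).add (sqI _ (cvf j)))
        (((mulI _ _ hf (cvf i)).add (mulI _ _ hf (cvf j))).const_mul G)
    have g2 : ∫ x, (‖cv V i f x‖ ^ 2 + ‖cv V j f x‖ ^ 2) =
        (∫ x, ‖cv V i f x‖ ^ 2) + ∫ x, ‖cv V j f x‖ ^ 2 :=
      integral_add (sqI _ (cvf i)) (sqI _ (cvf j))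
    have g3 : ∫ x, (‖f x‖ * ‖cv V i f x‖ + ‖f x‖ * ‖cv V j f x‖) =
        (∫ x, ‖f x‖ * ‖cv V i f x‖) + ∫ x, ‖f x‖ * ‖cv V j f x‖ :=
      integral_add (mulI _ _ hf (cvf i)) (mulI _ _ hf (cvf j))
    rw [g1, g2, integral_const_mul, g3]
  refine le_trans hfin ?_
  rw [hval]
  have h5 := hcs i
  have h6 := hcs j
  have h7 : G * ((∫ x, ‖f x‖ * ‖cv V i f x‖) + ∫ x, ‖f x‖ * ‖cv V j f x‖) ≤ G * (w + w) :=
    mul_le_mul_of_nonneg_left (add_le_add h5 h6) hG0
  linarith [hij_e, h7]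

end Pool.Agent.MBX.H48
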